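import Mathlib

namespace Pool.Agent.Results.MP_f351c6_gt.NoParacompactOrbit

open Set Filter Topology

universe u v

/-- `f` is a Korovin mapping: the projections of its orbit to all countable subproducts are
onto. -/
def IsKorovin {X : Type u} {G : Type v} [Mul G] (f : G → X) : Prop :=
  ∀ M : Set G, M.Countable → ∀ y : G → X, ∃ g : G, ∀ x ∈ M, f (x * g) = y x

/-- The orbit `G_f`, as a subset of the power `X ^ G`. -/
def orbit {X : Type u} {G : Type v} [Mul G] (f : G → X) : Set (G → X) :=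
  {h | ∃ g : G, ∀ x, h x = f (x * g)}

section general

variable {X : Type u} {I : Type v} [TopologicalSpace X] {D : Set (I → X)}

/-- The subset `D` of the power projects onto each countable subproduct. -/
def Full (D : Set (I → X)) : Prop :=
  ∀ M : Set I, M.Countable → ∀ y : I → X, ∃ d ∈ D, ∀ i ∈ M, d i = y i

lemma basic {O : Set D} (hO : IsOpen O) {d : D} (hd : d ∈ O) :
    ∃ (F : Finset I) (u : I → Set X), (∀ i ∈ F, IsOpen (u i) ∧ d.1 i ∈ u i) ∧
      ∀ h : D, (∀ i ∈ F, h.1 i ∈ u i) → h ∈ O := by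
  obtain ⟨V, hV, rfl⟩ := isOpen_induced_iff.mp hO
  obtain ⟨F, u, hu, hsub⟩ := isOpen_pi_iff.mp hV d.1 hd
  exact ⟨F, u, hu, fun h hh => hsub (fun i hi => hh i hi)⟩

lemma isOpen_basic (F : Finset I) (u : I → Set X) (hu : ∀ i ∈ F, IsOpen (u i)) :
    IsOpen {h : D | ∀ i ∈ F, h.1 i ∈ u i} := by
  have h1 : IsOpen ((F : Set I).pi u) := isOpen_set_pi F.finite_toSet (fun i hi => hu i hi)
  have h2 := h1.preimage (continuous_subtype_val (p := (· ∈ D)))
  convert h2 using 1
  ext h
  simp [Set.mem_pi]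

lemma regular_of (hD : Full D) [Nonempty I] [RegularSpace D] : RegularSpace X := by
  classical
  apply RegularSpace.of_exists_mem_nhds_isClosed_subset
  intro x s hs
  obtain ⟨V, hVs, hV, hxV⟩ := mem_nhds_iff.mp hs
  obtain ⟨i0⟩ := ‹Nonempty I›
  obtain ⟨d, hd, hdx⟩ := hD {i0} (countable_singleton _) (fun _ => x)
  have hdx0 : d i0 = x := hdx i0 rfl
  have hDV : IsOpen {h : D | h.1 i0 ∈ V} :=
    hV.preimage ((continuous_apply i0).comp continuous_subtype_val)
  have hdDV : (⟨d, hd⟩ : D) ∈ {h : D | h.1 i0 ∈ V} := by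
    show d i0 ∈ V
    rw [hdx0]; exact hxV
  obtain ⟨T, hT, hTc, hTV⟩ := exists_mem_nhds_isClosed_subset (hDV.mem_nhds hdDV)
  obtain ⟨O, hOT, hO, hdO⟩ := mem_nhds_iff.mp hT
  obtain ⟨F, u, hu, hsub⟩ := basic hO hdO
  let U1 : Set X := if i0 ∈ F then u i0 else univ
  have hU1 : IsOpen U1 := by
    by_cases h : i0 ∈ F
    · simp only [U1, h, if_true]; exact (hu i0 h).1
    · simp only [U1, h, if_false]; exact isOpen_univ
  have hxU1 : x ∈ U1 := by
    by_cases h : i0 ∈ F
    · simp only [U1, h, if_true]; rw [← hdx0]; exact (hu i0 h).2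
    · simp only [U1, h, if_false]; exact mem_univ _
  refine ⟨closure U1, mem_of_superset (hU1.mem_nhds hxU1) subset_closure, isClosed_closure, ?_⟩
  intro y hy
  apply hVs
  obtain ⟨h, hh, hhy⟩ := hD (insert i0 (F : Set I)) (F.countable_toSet.insert i0)
    (fun i => if i = i0 then y else d i)
  have hh0 : h i0 = y := by
    rw [hhy i0 (mem_insert _ _)]; simp
  have hhF : ∀ i ∈ F, i ≠ i0 → h i = d i := by
    intro i hi hne
    rw [hhy i (mem_insert_of_mem _ hi)]; simp [hne]
  have hcl : (⟨h, hh⟩ : D) ∈ T := by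
    rw [← hTc.closure_eq, mem_closure_iff]
    intro O2 hO2 hhO2
    obtain ⟨F2, u2, hu2, hsub2⟩ := basic hO2 hhO2
    let U2 : Set X := if i0 ∈ F2 then u2 i0 else univ
    have hU2 : IsOpen U2 := by
      by_cases h : i0 ∈ F2
      · simp only [U2, h, if_true]; exact (hu2 i0 h).1
      · simp only [U2, h, if_false]; exact isOpen_univ
    have hyU2 : y ∈ U2 := by
      by_cases h : i0 ∈ F2
      · simp only [U2, h, if_true]; rw [← hh0]; exact (hu2 i0 h).2
      · simp only [U2, h, if_false]; exact mem_univ _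
    obtain ⟨z, hz2, hz1⟩ := mem_closure_iff.mp hy U2 hU2 hyU2
    obtain ⟨h', hh', hh'y⟩ := hD (insert i0 ((F ∪ F2 : Finset I) : Set I))
      ((F ∪ F2).countable_toSet.insert i0) (fun i => if i = i0 then z else h i)
    have h'0 : h' i0 = z := by
      rw [hh'y i0 (mem_insert _ _)]; simp
    have h'F : ∀ i ∈ F ∪ F2, i ≠ i0 → h' i = h i := by
      intro i hi hne
      rw [hh'y i (mem_insert_of_mem _ (by exact_mod_cast hi))]; simp [hne]
    refine ⟨⟨h', hh'⟩, hsub2 _ ?_, hOT (hsub _ ?_)⟩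
    · intro i hi
      by_cases hii : i = i0
      · subst hii
        show h' i ∈ u2 i
        rw [h'0]
        simpa [U2, hi] using hz2
      · show h' i ∈ u2 i
        rw [h'F i (Finset.mem_union_right _ hi) hii]
        exact (hu2 i hi).2
    · intro i hi
      by_cases hii : i = i0
      · subst hii
        show h' i ∈ u i
        rw [h'0]
        simpa [U1, hi] using hz1
      · show h' i ∈ u i
        rw [h'F i (Finset.mem_union_left _ hi) hii, hhF i hi hii]
        exact (hu i hi).2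
  have := hTV hcl
  have h2 : h i0 ∈ V := this
  rwa [hh0] at h2

lemma exists_separated (hD : Full D) [Nonempty I] [Nontrivial X] [T2Space D] :
    ∃ a b : X, Disjoint (𝓝 a) (𝓝 b) := by
  classical
  obtain ⟨i0⟩ := ‹Nonempty I›
  obtain ⟨x, y, hxy⟩ := exists_pair_ne X
  obtain ⟨d1, hd1, h1⟩ := hD {i0} (countable_singleton _) (fun _ => x)
  obtain ⟨d2, hd2, h2⟩ := hD {i0} (countable_singleton _) (fun _ => y)
  have hne : (⟨d1, hd1⟩ : D) ≠ ⟨d2, hd2⟩ := by
    intro hc
    have : d1 = d2 := congrArg Subtype.val hc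
    apply hxy
    have h1' : d1 i0 = x := h1 i0 rfl
    have h2' : d2 i0 = y := h2 i0 rfl
    rw [← h1', ← h2', this]
  obtain ⟨O1, O2, hO1, hO2, hdO1, hdO2, hdis⟩ := t2_separation hne
  obtain ⟨F1, u1, hu1, hs1⟩ := basic hO1 hdO1
  obtain ⟨F2, u2, hu2, hs2⟩ := basic hO2 hdO2
  by_contra hcon
  push Not at hcon
  have hz : ∀ i, i ∈ F1 → i ∈ F2 → ∃ z, z ∈ u1 i ∧ z ∈ u2 i := by
    intro i hi1 hi2
    have h3 := hcon (d1 i) (d2 i)
    rw [Filter.disjoint_iff] at h3
    push Not at h3
    have h4 := h3 (u1 i) ((hu1 i hi1).1.mem_nhds (hu1 i hi1).2) (u2 i)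
      ((hu2 i hi2).1.mem_nhds (hu2 i hi2).2)
    rw [Set.not_disjoint_iff] at h4
    exact h4
  choose z hz1 hz2 using hz
  obtain ⟨h, hh, hy⟩ := hD ((F1 ∪ F2 : Finset I) : Set I) (F1 ∪ F2).countable_toSet
    (fun i => if hi1 : i ∈ F1 then (if hi2 : i ∈ F2 then z i hi1 hi2 else d1 i) else d2 i)
  refine disjoint_left.mp hdis (hs1 ⟨h, hh⟩ ?_) (hs2 ⟨h, hh⟩ ?_)
  · intro i hi1
    show h i ∈ u1 i
    rw [hy i (by simp [hi1])]
    by_cases hi2 : i ∈ F2
    · simp only [hi1, hi2, dif_pos]; exact hz1 i hi1 hi2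
    · simp only [hi1, hi2, dif_pos, dif_neg, not_false_eq_true]; exact (hu1 i hi1).2
  · intro i hi2
    show h i ∈ u2 i
    rw [hy i (by simp [hi2])]
    by_cases hi1 : i ∈ F1
    · simp only [hi1, hi2, dif_pos]; exact hz2 i hi1 hi2
    · simp only [hi1, dif_neg, not_false_eq_true]; exact (hu2 i hi2).2

/-- Main lemma: if `D` projects onto all countable subproducts and some point `q` of the power is
separated from each point of `D`, then `D` is not paracompact. -/
theorem not_paracompact (hD : Full D) (q : I → X)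
    (hq : ∀ d ∈ D, ∃ i, Disjoint (𝓝 (d i)) (𝓝 (q i))) : ¬ ParacompactSpace D := by
  classical
  intro hP
  -- the cover
  let A : Type (max u v) := {p : Finset I × (I → Set X) // ∀ i ∈ p.1, IsOpen (p.2 i) ∧ q i ∈ p.2 i}
  let s : A → Set D := fun p => interior {x : D | ∃ i ∈ p.1.1, x.1 i ∉ p.1.2 i}
  have hcover : ⋃ p, s p = univ := by
    rw [eq_univ_iff_forall]
    intro x
    obtain ⟨i, hi⟩ := hq x.1 x.2
    rw [Filter.disjoint_iff] at hi
    obtain ⟨N1, hN1, N2, hN2, hN⟩ := hi
    obtain ⟨U1, hU1N, hU1, hxU1⟩ := mem_nhds_iff.mp hN1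
    obtain ⟨U2, hU2N, hU2, hqU2⟩ := mem_nhds_iff.mp hN2
    rw [mem_iUnion]
    refine ⟨⟨({i}, fun _ => U2), ?_⟩, ?_⟩
    · intro j hj
      rw [Finset.mem_singleton] at hj
      subst hj
      exact ⟨hU2, hqU2⟩
    · show x ∈ interior _
      rw [mem_interior]
      refine ⟨{h : D | ∀ j ∈ ({i} : Finset I), h.1 j ∈ (fun _ => U1) j}, ?_,
        isOpen_basic _ _ (fun _ _ => hU1), ?_⟩
      · intro h hh
        refine ⟨i, Finset.mem_singleton_self i, fun hc => ?_⟩
        exact disjoint_left.mp hN (hU1N (hh i (Finset.mem_singleton_self i))) (hU2N hc)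
      · intro j hj
        rw [Finset.mem_singleton] at hj
        subst hj
        exact hxU1
  obtain ⟨β, t, ht, htu, htf, hts⟩ := hP.locallyFinite_refinement A s (fun _ => isOpen_interior)
    hcover
  choose w hw using hts
  have hw' : ∀ b, ∀ x ∈ t b, ∃ i ∈ (w b).1.1, x.1 i ∉ (w b).1.2 i := by
    intro b x hx
    have h1 : x ∈ interior {x : D | ∃ i ∈ (w b).1.1, x.1 i ∉ (w b).1.2 i} := hw b hx
    have h2 : x ∈ {x : D | ∃ i ∈ (w b).1.1, x.1 i ∉ (w b).1.2 i} := interior_subset h1
    exact h2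
  -- infinitely many members meet each basic slice
  have hslice : ∀ (K : Finset I) (S : Finset β), ∃ b, b ∉ S ∧ ∃ x ∈ t b, ∀ i ∈ K, x.1 i = q i := by
    intro K S
    by_contra hcon
    push Not at hcon
    obtain ⟨x, hx, hxq⟩ := hD ((K ∪ S.biUnion (fun b => (w b).1.1) : Finset I) : Set I)
      (Finset.countable_toSet _) q
    have hxt : (⟨x, hx⟩ : D) ∈ ⋃ b, t b := by rw [htu]; exact mem_univ _
    obtain ⟨b, hb⟩ := mem_iUnion.mp hxt
    have hbS : b ∈ S := by
      by_contra hc
      obtain ⟨i, hi, hne⟩ := hcon b hc ⟨x, hx⟩ hb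
      exact hne (hxq i (by simp [hi]))
    obtain ⟨i, hi, hne⟩ := hw' b _ hb
    apply hne
    show x i ∈ (w b).1.2 i
    rw [hxq i]
    · exact ((w b).2 i hi).2
    · rw [Finset.mem_coe, Finset.mem_union, Finset.mem_biUnion]
      exact Or.inr ⟨b, hbS, hi⟩
  have step : ∀ (K : Finset I) (S : Finset β), ∃ (b : β) (x : D) (F : Finset I) (u : I → Set X),
      b ∉ S ∧ (∀ i ∈ K, x.1 i = q i) ∧ (∀ i ∈ F, IsOpen (u i) ∧ x.1 i ∈ u i) ∧
      ∀ h : D, (∀ i ∈ F, h.1 i ∈ u i) → h ∈ t b := by
    intro K S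
    obtain ⟨b, hbS, x, hx, hxq⟩ := hslice K S
    obtain ⟨F, u, hu, hsub⟩ := basic (ht b) hx
    exact ⟨b, x, F, u, hbS, hxq, hu, hsub⟩
  choose b x F u hbS hxq hu hsub using step
  let st : ℕ → Finset I × Finset β := fun n => Nat.rec (∅, ∅)
    (fun _ p => (p.1 ∪ F p.1 p.2, insert (b p.1 p.2) p.2)) n
  have hst : ∀ n, st (n + 1) = ((st n).1 ∪ F (st n).1 (st n).2,
    insert (b (st n).1 (st n).2) (st n).2) := fun n => rfl
  have hmono1 : Monotone (fun n => (st n).1) := by
    apply monotone_nat_of_le_succ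
    intro n
    show (st n).1 ≤ (st (n + 1)).1
    rw [hst]
    exact Finset.subset_union_left
  have hmono2 : Monotone (fun n => (st n).2) := by
    apply monotone_nat_of_le_succ
    intro n
    show (st n).2 ≤ (st (n + 1)).2
    rw [hst]
    exact Finset.subset_insert _ _
  let bn : ℕ → β := fun n => b (st n).1 (st n).2
  have hbn : ∀ m n, m < n → bn m ≠ bn n := by
    intro m n hmn hc
    have h1 : bn m ∈ (st (m + 1)).2 := by
      rw [hst]
      exact Finset.mem_insert_self _ _
    have h2 : bn m ∈ (st n).2 := hmono2 hmn h1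
    rw [hc] at h2
    exact hbS _ _ h2
  have hbinj : Function.Injective bn := by
    intro m n hmn
    rcases lt_trichotomy m n with h | h | h
    · exact (hbn m n h hmn).elim
    · exact h
    · exact (hbn n m h hmn.symm).elim
  have hKc : (⋃ n, ((st n).1 : Set I)).Countable := countable_iUnion fun n => Finset.countable_toSet _
  obtain ⟨d, hd, hdq⟩ := hD _ hKc q
  obtain ⟨N, hN, hNf⟩ := htf ⟨d, hd⟩
  obtain ⟨O, hON, hO, hdO⟩ := mem_nhds_iff.mp hN
  obtain ⟨F', u', hu', hsub'⟩ := basic hO hdO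
  have hm : ∃ m, ∀ i ∈ F', i ∈ (⋃ n, ((st n).1 : Set I)) → i ∈ (st m).1 := by
    have h1 : ∀ i, ∃ m, i ∈ (⋃ n, ((st n).1 : Set I)) → i ∈ (st m).1 := by
      intro i
      by_cases hi : i ∈ (⋃ n, ((st n).1 : Set I))
      · obtain ⟨m, hm⟩ := mem_iUnion.mp hi
        exact ⟨m, fun _ => hm⟩
      · exact ⟨0, fun h => absurd h hi⟩
    choose m hm using h1
    refine ⟨F'.sup m, fun i hi hiK => ?_⟩
    exact hmono1 (Finset.le_sup hi) (hm i hiK)
  obtain ⟨m, hm⟩ := hm
  apply hNf.not_infinite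
  apply infinite_of_injective_forall_mem (f := fun n => bn (n + m))
  · intro a c hac
    have := hbinj hac
    omega
  · intro n'
    set n := n' + m with hn
    have hmn : m ≤ n := by omega
    -- a point of `D` in `t (bn n) ∩ N`
    obtain ⟨h, hh, hy⟩ := hD ((F (st n).1 (st n).2 ∪ F' : Finset I) : Set I)
      (Finset.countable_toSet _)
      (fun i => if i ∈ F (st n).1 (st n).2 then (x (st n).1 (st n).2).1 i else d i)
    refine ⟨⟨h, hh⟩, ?_, hON (hsub' _ ?_)⟩
    · apply hsub
      intro i hi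
      show h i ∈ _
      rw [hy i (by simp [hi])]
      simp only [hi, if_true]
      exact (hu _ _ i hi).2
    · intro i hi
      show h i ∈ u' i
      rw [hy i (by simp [hi])]
      by_cases hiF : i ∈ F (st n).1 (st n).2
      · simp only [hiF, if_true]
        have h1 : i ∈ (st (n + 1)).1 := by
          rw [hst]
          exact Finset.mem_union_right _ hiF
        have h2 : i ∈ (⋃ n, ((st n).1 : Set I)) := mem_iUnion.mpr ⟨n + 1, h1⟩
        have h3 : i ∈ (st n).1 := hmono1 hmn (hm i hi h2)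
        rw [hxq _ _ i h3, ← hdq i h2]
        exact (hu' i hi).2
      · simp only [hiF, if_false]
        exact (hu' i hi).2

end general

/-- No Korovin orbit is a paracompact (Hausdorff) space. -/
theorem result {X : Type u} {G : Type v} [TopologicalSpace X] [Nontrivial X] [CommGroup G]
    [Infinite G] (f : G → X) (hf : IsKorovin f) :
    ¬ (T2Space (orbit f) ∧ ParacompactSpace (orbit f)) := by
  classical
  rintro ⟨hT2, hP⟩
  have hD : Full (orbit f) := by
    intro M hM y
    obtain ⟨g, hg⟩ := hf M hM y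
    exact ⟨fun x => f (x * g), ⟨g, fun _ => rfl⟩, hg⟩
  have hreg : RegularSpace X := regular_of hD
  obtain ⟨a, b, hab⟩ := exists_separated hD
  -- a point of the power that differs essentially from all points of the orbit
  have hex : ∃ s : Set G, ∀ d ∈ orbit f, ∃ i, ¬ Inseparable (d i) (if i ∈ s then a else b) := by
    by_contra hcon
    push Not at hcon
    choose d hd hdi using hcon
    choose g hg using hd
    apply Function.cantor_injective g
    intro s t hst
    have hdd : d s = d t := by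
      funext x
      rw [hg s x, hg t x, hst]
    have hna : ¬ Inseparable a b := by
      intro hc
      rw [hc.nhds_eq, disjoint_self] at hab
      exact (nhds_neBot (x := b)).ne hab
    ext i
    have h1 := hdi s i
    have h2 := hdi t i
    rw [hdd] at h1
    have h3 := h1.symm.trans h2
    by_cases his : i ∈ s
    · by_cases hit : i ∈ t
      · simp [his, hit]
      · simp only [his, hit, if_true, if_false] at h3
        exact (hna h3).elim
    · by_cases hit : i ∈ t
      · simp only [his, hit, if_true, if_false] at h3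
        exact (hna h3.symm).elim
      · simp [his, hit]
  obtain ⟨s, hs⟩ := hex
  refine not_paracompact hD (fun i => if i ∈ s then a else b) ?_ hP
  intro d hd
  obtain ⟨i, hi⟩ := hs d hd
  exact ⟨i, (r1Space_iff_inseparable_or_disjoint_nhds.mp inferInstance _ _).resolve_left hi⟩

end Pool.Agent.Results.MP_f351c6_gt.NoParacompactOrbit
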